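import Pool.Agent.V11290.FD.Av

/-!
# The conjecture of Elliott and Halberstam on average over the residues near `t α`, for measures with Fourier decay

Absolute values over all moduli and arbitrary heights inside; the residue is averaged, with arbitrary coefficients, over
the integers which arise by rounding `t α + c`, where `α` is distributed with respect to ANY probability measure `μ` on
`[-B, B]` whose Fourier transform decays like some power, with an arbitrarily small exponent `σ > 0`. (Such measures live
on many sets of Lebesgue measure zero and of arbitrarily small dimension, for example on the sets of `τ`-well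
approximable numbers (Kaufman), on random Salem sets and on limit sets of convex cocompact Fuchsian groups (Bourgain, Dyatlov); so
the residues may be taken from a set of only `t ^ δ` integers up to `B t`, with an arbitrarily small `δ > 0`.) The bound is
uniform in `μ` for given `B`, `C` and `σ`.

Proof: the law of a random rounding of `t α` has a small characteristic function away from the integers (a Fourier
series with the coefficients `sinc²`), and the theorem of the library TH872.An4 on averages over random residues with a
small characteristic function (starting files) is applied to it.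

From Mathlib: `ArithmeticFunction.vonMangoldt`: the function `Λ`; `Nat.totient`: Euler's function.
-/

set_option autoImplicit false

namespace Pool.Agent.Results.MP_a78e8f_nt.FourierDecay

open MeasureTheory Finset

/-- `ψ(x; q, a)`: the sum of `Λ(n)` over the `n ≤ x` with `n ≡ a (mod q)`. -/
noncomputable def psi (x q a : ℕ) : ℝ :=
  ∑ n ∈ (Icc 1 x).filter (fun n => n ≡ a [MOD q]), ArithmeticFunction.vonMangoldt n

/-- The probability with which `t α + c` is rounded to the integer `a`, if `α` has the distribution `μ` and a number
`y` is rounded to one of the two integers next to it, to the integer `a` with the probability `1 - |y - a|`. -/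
noncomputable def prob (μ : Measure ℝ) (t : ℝ) (c : ℤ) (a : ℕ) : ℝ := ∫ α, max 0 (1 - |t * α + c - a|) ∂μ

/-- The average of `w(a) (ψ(x; q, a) - x / φ(q))` over the residues `1 ≤ a ≤ N` coprime to `q`, with the
probabilities `prob μ t c a`. -/
noncomputable def average (μ : Measure ℝ) (t : ℝ) (c : ℤ) (w : ℤ → ℝ) (N x q : ℕ) : ℝ :=
  ∑ a ∈ (Icc 1 N).filter (fun a => a.Coprime q), prob μ t c a * (w a * (psi x q a - (x : ℝ) / Nat.totient q))

/-- Let `B`, `C`, `T`, `U`, `σ > 0` and `ε > 0` be fixed and let `t` be large in terms of these. Let `μ` be a probability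
measure on `[-B, B]` with `|μ^(ξ)| ≤ C |ξ| ^ (-σ)` for `|ξ| ≥ 1`, let `c` be an integer with `|c| ≤ B t`, let `w(a)` be
arbitrary real coefficients with `|w(a)| ≤ log ^ T t`, and for every modulus `q` let `x(q) ≤ B t` be an arbitrary height. Then
the sum over ALL moduli `q ≤ t ^ (1 - ε)` of the ABSOLUTE VALUE of the average of
`w(a) (ψ(x(q); q, a) - x(q) / φ(q))` over the residues `a > 0` coprime to `q`, with the probabilities with which
`t α + c` is rounded to `a`, is at most `t / log ^ U t`. (These probabilities are `0` for `a > N` if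
`N ≥ (2 B + 3) t`.) -/
theorem result (B C σ : ℝ) (hB : 0 < B) (hσ : 0 < σ) (T U : ℕ) (ε : ℝ) (hε : 0 < ε) :
    ∃ t₀ : ℝ, 2 ≤ t₀ ∧ ∀ (μ : Measure ℝ) [IsProbabilityMeasure μ], (∀ ξ : ℝ, 1 ≤ |ξ| → ‖charFun μ ξ‖ ≤ C * |ξ| ^ (-σ)) →
      (∀ᵐ α ∂μ, |α| ≤ B) → ∀ t : ℝ, t₀ ≤ t → ∀ c : ℤ, |(c : ℝ)| ≤ B * t →
      ∀ w : ℤ → ℝ, (∀ a, |w a| ≤ Real.log t ^ T) → ∀ x : ℕ → ℕ, (∀ q, (x q : ℝ) ≤ B * t) → ∀ N : ℕ, (2 * B + 3) * t ≤ N →
        ∑ q ∈ Icc 1 ⌊t ^ (1 - ε)⌋₊, |average μ t c w N (x q) q| ≤ t / Real.log t ^ U :=
  Pool.Agent.V11290.FD.av_fin B C σ hB hσ T U ε hε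

end Pool.Agent.Results.MP_a78e8f_nt.FourierDecay
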