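import Pool.Agent.V11290.TI.A8
import Pool.Agent.V11290.FD.Win

/-!
# Level of distribution `N / log ^ K N` for arbitrary sets of primes (and arbitrary functions with a Siegel-Walfisz
condition), for all residues near the typical dilates `t α + s`, `α` in sets of arbitrarily small Fourier dimension

Let `μ` be ANY compactly supported probability measure on the line whose Fourier transform decays like some power, with an
arbitrarily small exponent. For `μ`-almost every `α` and all but finitely many `j`, ALL nonzero residues `a` near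
`t j α + s j` are such that every function `g` from a given collection of at most `log ^ T t j` functions (for instance the
characteristic function of an arbitrary set of primes) which satisfies the Siegel-Walfisz condition modulo the moduli up to a
power of `log N` is equidistributed in the classes `a` modulo `q` up to the level `N / log ^ K N`, with arbitrary
coefficients. In particular this holds for the primes themselves.

Proof: the sum over the divisors `q ≤ D` of `n - a` minus its model (the contribution of the Farey fractions with small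
denominators) has a small exponential sum (`Pool.Agent.TH212.DV`, starting files); the first moment of its correlation with an
arbitrary function over a family of residues of nearly minimal energy is small; the residues `t α + s` are modelled by such
families; the model is compared with `1 / φ(q)` by the Siegel-Walfisz condition for those `a` which do not have too many
divisors, and the energy shows that there are few others.
-/

set_option autoImplicit false

namespace Pool.Agent.Results.MP_a78e8f_nt.FourierDecaySets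

open Finset MeasureTheory

/-- `S(g; X)`: the sum of `g(n)` over the `n` with `1 ≤ n ≤ X`. -/
noncomputable def total (g : ℕ → ℝ) (X : ℕ) : ℝ := ∑ n ∈ Icc 1 X, g n

/-- `S(g; X, q, a)`: the sum of `g(n)` over the `n` with `1 ≤ n ≤ X` and `n ≡ a (mod q)`. -/
noncomputable def prog (g : ℕ → ℝ) (X q : ℕ) (a : ℤ) : ℝ :=
  ∑ n ∈ (Icc 1 X).filter (fun n : ℕ => (n : ℤ) ≡ a [ZMOD q]), g n

/-- The expected value of `S(g; X, q, a)`: it is `S(g; X) / φ(q)` if `a` is coprime to `q`, and `0` otherwise. -/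
noncomputable def expected (g : ℕ → ℝ) (X q : ℕ) (a : ℤ) : ℝ :=
  if Int.gcd a q = 1 then total g X / Nat.totient q else 0

/-- The Siegel-Walfisz condition: `S(g; X, r, c)` differs from its expected value by at most `δ`, for all moduli
`1 ≤ r ≤ z` and all residues `c`. -/
def SiegelWalfisz (g : ℕ → ℝ) (X : ℕ) (z δ : ℝ) : Prop :=
  ∀ r : ℕ, 1 ≤ r → (r : ℝ) ≤ z → ∀ c : ℤ, |prog g X r c - expected g X r c| ≤ δ

/-- The sum of `λ(q) (S(g; X, q, a) - expected value)` over all `1 ≤ q ≤ D`. -/
noncomputable def weighted (lam g : ℕ → ℝ) (D X : ℕ) (a : ℤ) : ℝ :=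
  ∑ q ∈ Icc 1 D, lam q * (prog g X q a - expected g X q a)

/-- The level `N / log ^ K N`, rounded down. -/
noncomputable def level (K N : ℕ) : ℕ := ⌊N / Real.log N ^ K⌋₊

/-- The function `Λ` of von Mangoldt, with real values. -/
noncomputable def Lam (n : ℕ) : ℝ := ArithmeticFunction.vonMangoldt n

open Pool.Agent.V11290.TI (Sq Ex SW Er)

lemma prog_eq (g : ℕ → ℝ) (X q : ℕ) (a : ℤ) : prog g X q a = Sq g X q a := by
  unfold prog Sq
  rw [sum_filter]
  apply sum_congr rfl
  intro n _
  have h : (n : ℤ) ≡ a [ZMOD q] ↔ (q : ℤ) ∣ (n : ℤ) - a := by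
    rw [Int.modEq_comm]
    exact Int.modEq_iff_dvd
  by_cases h1 : (n : ℤ) ≡ a [ZMOD q]
  · rw [if_pos h1, if_pos (h.1 h1)]
  · rw [if_neg h1, if_neg (fun h' => h1 (h.2 h'))]

lemma expected_eq (g : ℕ → ℝ) (X q : ℕ) (a : ℤ) : expected g X q a = Ex (∑ n ∈ Icc 1 X, g n) q a := by
  unfold expected Ex total
  have h : Int.gcd a q = 1 ↔ q.Coprime a.natAbs := by
    unfold Nat.Coprime
    rw [Nat.gcd_comm]
    rfl
  by_cases h1 : Int.gcd a q = 1
  · rw [if_pos h1, if_pos (h.1 h1)]
  · rw [if_neg h1, if_neg (fun h' => h1 (h.2 h'))]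

lemma weighted_eq (lam g : ℕ → ℝ) (D X : ℕ) (a : ℤ) : weighted lam g D X a = Er lam g (∑ n ∈ Icc 1 X, g n) D X a := by
  unfold weighted Er
  apply sum_congr rfl
  intro q _
  rw [prog_eq, expected_eq]

lemma sw_of (g : ℕ → ℝ) (X z' : ℕ) (z δ : ℝ) (hz : (z' : ℝ) ≤ z) (h : SiegelWalfisz g X z δ) : SW g (∑ n ∈ Icc 1 X, g n) X z' δ := by
  intro r hr hrz c
  have h1 := h r hr ((by exact_mod_cast hrz : (r : ℝ) ≤ z').trans hz) c
  rw [prog_eq, expected_eq] at h1
  exact h1

lemma ceil_pow (L : ℝ) (hL : 2 ≤ L) (E : ℕ) : ((⌈L ^ E⌉₊ : ℕ) : ℝ) ≤ L ^ (E + 1) := by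
  have h1 : ((⌈L ^ E⌉₊ : ℕ) : ℝ) < L ^ E + 1 := Nat.ceil_lt_add_one (by positivity)
  have h2 : 1 ≤ L ^ E := one_le_pow₀ (by linarith)
  rw [pow_succ]
  nlinarith

/-- **Level of distribution for arbitrary sets, residues near typical dilates.** Let `μ` be a probability measure on `[-B, B]`
with `|μ^(ξ)| ≤ C |ξ| ^ (-σ)` for `|ξ| ≥ 1` and some `C` and `σ > 0`. Let `t j ≥ 2` and `|s j| ≤ B t j` be real numbers such that
the sum of the `1 / log ^ V (t j)` converges for some `V`, and `N j = ⌈t j⌉`. For each `j` let at most `log ^ T t j` triples of a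
length `X ≤ G N j`, a function `g` and coefficients `λ(q)` be given, with `g` and `λ` bounded by `log ^ T t j`.

(1) For `μ`-almost every `α` and all `A`, `U` there are `K`, `E`, `V` such that for all but finitely many `j`: for ALL nonzero
integers `a` with `|a - (t j α + s j)| ≤ log ^ A (t j)` and all the given triples for which `g` satisfies the Siegel-Walfisz
condition with the error `N / log ^ V N` modulo the moduli up to `log ^ E N`, `N = N j`, the sum of
`λ(q) (S(g; X, q, a) - expected value)` over the `q ≤ N / log ^ K N` has absolute value at most `N / log ^ U N`.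

(2) The same holds for `g = Λ`, without a condition. -/
theorem result (μ : Measure ℝ) [IsProbabilityMeasure μ] (B : ℝ) (hμ : ∀ᵐ α ∂μ, |α| ≤ B)
    (C σ : ℝ) (hσ : 0 < σ) (hdec : ∀ ξ : ℝ, 1 ≤ |ξ| → ‖charFun μ ξ‖ ≤ C * |ξ| ^ (-σ))
    (J : Type) (t s : J → ℝ) (ht : ∀ j, 2 ≤ t j) (hs : ∀ j, |s j| ≤ B * t j)
    (hsum : ∃ V : ℕ, Summable fun j => 1 / Real.log (t j) ^ V) (G T : ℕ) (Ln : J → ℕ)
    (hL : ∀ j, (Ln j : ℝ) ≤ Real.log (t j) ^ T) (X : (j : J) → Fin (Ln j) → ℕ) (hX : ∀ j l, X j l ≤ G * ⌈t j⌉₊)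
    (g lam : (j : J) → Fin (Ln j) → ℕ → ℝ) (hg : ∀ j l, ∀ n ≤ X j l, |g j l n| ≤ Real.log (t j) ^ T)
    (hlam : ∀ j l q, |lam j l q| ≤ Real.log (t j) ^ T) :
    (∀ᵐ α ∂μ, ∀ A U : ℕ, ∃ K E V : ℕ,
      {j | ¬ ∀ a : ℤ, a ≠ 0 → |(a : ℝ) - (t j * α + s j)| ≤ Real.log (t j) ^ A → ∀ l,
        SiegelWalfisz (g j l) (X j l) (Real.log ⌈t j⌉₊ ^ E) (⌈t j⌉₊ / Real.log ⌈t j⌉₊ ^ V) →
        |weighted (lam j l) (g j l) (level K ⌈t j⌉₊) (X j l) a| ≤ ⌈t j⌉₊ / Real.log ⌈t j⌉₊ ^ U}.Finite) ∧
    (∀ᵐ α ∂μ, ∀ A U : ℕ, ∃ K : ℕ,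
      {j | ¬ ∀ a : ℤ, a ≠ 0 → |(a : ℝ) - (t j * α + s j)| ≤ Real.log (t j) ^ A → ∀ l,
        |weighted (lam j l) Lam (level K ⌈t j⌉₊) (X j l) a| ≤ ⌈t j⌉₊ / Real.log ⌈t j⌉₊ ^ U}.Finite) := by
  classical
  obtain ⟨Vs, hVs⟩ := hsum
  constructor
  · filter_upwards [Pool.Agent.V11290.TI.sw_ae μ B hμ C σ hσ hdec J t s ht hs ⟨Vs, hVs⟩ G T Ln hL X hX g lam hg hlam] with α hα A U
    obtain ⟨K, E, V, h⟩ := hα A U
    refine ⟨K, E + 1, V, (h.union (Pool.Agent.V11290.FD.small_fin t ht Vs hVs (Real.exp 2))).subset ?_⟩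
    intro j hj
    rw [Set.mem_union]
    by_cases hjt : t j < Real.exp 2
    · exact Or.inr hjt
    · left
      rw [Set.mem_ofPred_eq] at hj ⊢
      intro hall
      apply hj
      intro a ha0 ha l hsw
      have hlog : 2 ≤ Real.log (⌈t j⌉₊ : ℝ) := by
        have h1 : 2 ≤ Real.log (t j) := by
          rw [Real.le_log_iff_exp_le (by linarith [ht j])]
          exact not_lt.1 hjt
        exact h1.trans (Real.log_le_log (by linarith [ht j]) (Nat.le_ceil _))
      rw [weighted_eq]
      exact hall a ha0 ha l (sw_of _ _ _ _ _ (ceil_pow _ hlog E) hsw)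
  · have hlog : ∀ j : {j // Real.exp 1 ≤ t j}, 1 ≤ Real.log (t j) := by
      intro j
      rw [Real.le_log_iff_exp_le (by linarith [ht j])]
      exact j.2
    have hmono : ∀ j : {j // Real.exp 1 ≤ t j}, Real.log (t j) ^ T ≤ Real.log (t j) ^ (T + 2) :=
      fun j => pow_le_pow_right₀ (hlog j) (by omega)
    have h := Pool.Agent.V11290.TI.sw_ae μ B hμ C σ hσ hdec {j // Real.exp 1 ≤ t j} (fun j => t j) (fun j => s j)
      (fun j => ht j) (fun j => hs j) ⟨Vs, hVs.comp_injective Subtype.val_injective⟩ G (T + 2) (fun j => Ln j)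
      (fun j => (hL j).trans (hmono j)) (fun j => X j) (fun j => hX j)
      (fun j _ n => min (Lam n) (Real.log (t j) ^ (T + 2))) (fun j => lam j) (by
        intro j l n _
        have h1 : 0 ≤ Lam n := ArithmeticFunction.vonMangoldt_nonneg
        have h2 : 0 ≤ Real.log (t j) ^ (T + 2) := pow_nonneg (by linarith [hlog j]) _
        rw [abs_of_nonneg (le_min h1 h2)]
        exact min_le_right _ _) (fun j l q => (hlam j l q).trans (hmono j))
    filter_upwards [h] with α hα A U
    obtain ⟨K, E, V, hfin⟩ := hα A U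
    obtain ⟨n0, hn0⟩ := Pool.Agent.V11290.TI.lam_sw G E V
    refine ⟨K, ((hfin.image Subtype.val).union (Pool.Agent.V11290.FD.small_fin t ht Vs hVs
      (max (max (Real.exp 2) n0) (2 * G)))).subset ?_⟩
    intro j hj
    rw [Set.mem_union]
    by_cases hjt : t j < max (max (Real.exp 2) n0) (2 * G)
    · exact Or.inr hjt
    · left
      push Not at hjt
      have q1 : Real.exp 2 ≤ t j := ((le_max_left _ _).trans (le_max_left _ _)).trans hjt
      have q2 : (n0 : ℝ) ≤ t j := ((le_max_right _ _).trans (le_max_left _ _)).trans hjt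
      have q3 : 2 * (G : ℝ) ≤ t j := (le_max_right _ _).trans hjt
      have htj := ht j
      have hl2 : 2 ≤ Real.log (t j) := by
        rw [Real.le_log_iff_exp_le (by linarith)]
        exact q1
      have q0 : Real.exp 1 ≤ t j := (Real.exp_le_exp.2 (by norm_num)).trans q1
      refine ⟨⟨j, q0⟩, ?_, rfl⟩
      rw [Set.mem_ofPred_eq] at hj ⊢
      intro hall
      apply hj
      intro a ha0 ha l
      have hceil : (⌈t j⌉₊ : ℝ) ≤ t j + 1 := (Nat.ceil_lt_add_one (by linarith)).le
      have hc : ∀ n ∈ Icc 1 (X j l), min (Lam n) (Real.log (t j) ^ (T + 2)) = Lam n := by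
        intro n hn
        rw [mem_Icc] at hn
        apply min_eq_left
        have h1 : (n : ℝ) ≤ G * ⌈t j⌉₊ := by exact_mod_cast hn.2.trans (hX j l)
        have hG0 : (0 : ℝ) ≤ G := Nat.cast_nonneg _
        have h2 : (n : ℝ) ≤ t j ^ 2 := by
          calc (n : ℝ) ≤ G * ⌈t j⌉₊ := h1
            _ ≤ G * (t j + 1) := mul_le_mul_of_nonneg_left hceil hG0
            _ ≤ G * (2 * t j) := mul_le_mul_of_nonneg_left (by linarith) hG0
            _ = (2 * G) * t j := by ring
            _ ≤ t j * t j := mul_le_mul_of_nonneg_right q3 (by linarith)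
            _ = _ := by ring
        have hn0 : (0 : ℝ) < n := by exact_mod_cast (by omega : 0 < n)
        calc Lam n ≤ Real.log n := ArithmeticFunction.vonMangoldt_le_log
          _ ≤ Real.log (t j ^ 2) := Real.log_le_log hn0 h2
          _ = 2 * Real.log (t j) := by rw [Real.log_pow]; norm_num
          _ ≤ Real.log (t j) * Real.log (t j) := mul_le_mul_of_nonneg_right hl2 (by linarith)
          _ = Real.log (t j) ^ 2 := by ring
          _ ≤ _ := pow_le_pow_right₀ (by linarith) (by omega)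
      have hN : n0 ≤ ⌈t j⌉₊ := by
        have : (n0 : ℝ) ≤ (⌈t j⌉₊ : ℝ) := q2.trans (Nat.le_ceil _)
        exact_mod_cast this
      have hsum : ∑ n ∈ Icc 1 (X j l), min (Lam n) (Real.log (t j) ^ (T + 2)) = ∑ n ∈ Icc 1 (X j l), Lam n := sum_congr rfl hc
      have hSq : ∀ q c, Sq (fun n => min (Lam n) (Real.log (t j) ^ (T + 2))) (X j l) q c = Sq Lam (X j l) q c :=
        fun q c => Pool.Agent.V11290.TI.Sq_congr _ _ _ _ _ hc
      have h3 := hall a ha0 ha l (by
        intro r hr hrz c
        simp only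
        rw [hSq, hsum]
        exact hn0 ⌈t j⌉₊ hN (X j l) (hX j l) r hr hrz c)
      rw [weighted_eq]
      unfold Er at h3 ⊢
      simp only at h3
      simp_rw [hSq, hsum] at h3
      exact h3

end Pool.Agent.Results.MP_a78e8f_nt.FourierDecaySets
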