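import Pool.Agent.Y856.Metric.Prob

/-!
# The bound of Elliott and Halberstam over random residues

For arbitrary random sets `T(q)` of residues (with no independence whatsoever between the different
moduli) in which every single class modulo `q` is represented with probability at most `κ q ^ (-s)`,
almost surely the bound of Elliott and Halberstam, with the maxima over the lengths and over the residues of
`T(q)` inside the sum, holds at ALL levels `θ < 1 / (2 - s)`. For `s = 0` (all residues) this is the level
`1/2` of Bombieri and Vinogradov, for `s = 1` (e.g. one uniformly distributed random residue for every modulus)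
it is the full conjecture.
-/

set_option autoImplicit false

namespace Pool.Agent.Results.MP_a78e8f_nt.RandomResidues

open Finset MeasureTheory

/-- `π(y)`: the number of primes `p ≤ y`. -/
noncomputable def primePi (y : ℕ) : ℕ := ((Icc 1 y).filter (fun p : ℕ => p.Prime)).card

/-- `π(y; q, a)`: the number of primes `p ≤ y` with `p ≡ a (mod q)`, where `a` is an integer. -/
noncomputable def primePiAP (y q : ℕ) (a : ℤ) : ℕ :=
  ((Icc 1 y).filter (fun p : ℕ => p.Prime ∧ (p : ℤ) ≡ a [ZMOD q])).card

/-- The bound of Elliott and Halberstam at level `θ` with the residues `a` modulo `q` restricted to the finite set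
`T(q)`: for every `A > 0` there is `C` such that for all integers `x > 2` and all choices of lengths `y(q) ≤ x` and of
residues `a(q)` the sum of `|π(y(q); q, a(q)) - π(y(q))/φ(q)|` over all `q ≤ x ^ θ` with `a(q) ∈ T(q)` and
`(a(q), q) = 1` is at most `C x / (log x) ^ A`. (Thus the maxima over `y ≤ x` and over `a ∈ T(q)` stand inside the
sum over `q`.) -/
def EHOver (θ : ℝ) (T : ℕ → Finset ℤ) : Prop :=
  ∀ A : ℝ, 0 < A → ∃ C : ℝ, ∀ x : ℕ, 2 < x → ∀ y : ℕ → ℕ, (∀ q, y q ≤ x) → ∀ a : ℕ → ℤ,
    ∑ q ∈ (Icc 1 ⌊(x : ℝ) ^ θ⌋₊).filter (fun q => a q ∈ T q ∧ Int.gcd (a q) q = 1),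
      |(primePiAP (y q) q (a q) : ℝ) - (primePi (y q) : ℝ) / (Nat.totient q : ℝ)| ≤
      C * (x / Real.log x ^ A)

theorem EHOver.mono {θ θ' : ℝ} (h : θ ≤ θ') {T : ℕ → Finset ℤ} (H : EHOver θ' T) : EHOver θ T := by
  intro A hA
  obtain ⟨C, hC⟩ := H A hA
  refine ⟨C, fun x hx y hy a => le_trans ?_ (hC x hx y hy a)⟩
  apply sum_le_sum_of_subset_of_nonneg
  · apply filter_subset_filter
    apply Icc_subset_Icc_right
    apply Nat.floor_le_floor
    apply Real.rpow_le_rpow_of_exponent_le _ h
    exact_mod_cast (by omega : 1 ≤ x)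
  · intros
    exact abs_nonneg _

/-- **Random residues.** Let `(Ω, μ)` be a probability space, let `s ≤ 1`, and for every modulus `q` let `T(q)` be
an arbitrary random finite set of integers, such that for every class `l` modulo `q` the set `T(q)` contains an
element of the class `l` with probability at most `κ q ^ (-s)`. (No assumption is made on the joint distribution for
different `q` or for different classes. Examples: `s = 1` for one random residue with a distribution of bounded
density, or for `q ↦ c(q) + ω mod q` with a random profinite integer `ω`; any `s ≤ 1` for the classes in a random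
translate of a set of at most `κ q ^ (1 - s)` classes.)

Then almost surely the bound of Elliott and Halberstam over the residues in `T(q)`, with the maxima over the lengths
and over the residues inside the sum, holds for all levels `θ` with `θ (2 - s) < 1` simultaneously. -/
theorem result {Ω : Type*} [MeasurableSpace Ω] (μ : Measure Ω) [IsProbabilityMeasure μ]
    (T : ℕ → Ω → Finset ℤ) (s κ : ℝ) (hs : s ≤ 1)
    (hT : ∀ q : ℕ, 1 ≤ q → ∀ l : ℤ, MeasurableSet {ω | ∃ a ∈ T q ω, a ≡ l [ZMOD q]})
    (hlaw : ∀ q : ℕ, 1 ≤ q → ∀ l : ℤ, μ.real {ω | ∃ a ∈ T q ω, a ≡ l [ZMOD q]} ≤ κ * (q : ℝ) ^ (-s)) :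
    ∀ᵐ ω ∂μ, ∀ θ : ℝ, θ * (2 - s) < 1 → EHOver θ (fun q => T q ω) := by
  have h1 : ∀ r : ℚ, ∀ᵐ ω ∂μ, (r : ℝ) * (2 - s) < 1 → EHOver (r : ℝ) (fun q => T q ω) := by
    intro r
    by_cases hr : (r : ℝ) * (2 - s) < 1
    · filter_upwards [Pool.Agent.Y856.prob_main μ T s κ r hs hT hlaw hr] with ω hω _
      exact hω
    · exact Filter.Eventually.of_forall fun ω h => absurd h hr
  rw [← ae_all_iff] at h1
  filter_upwards [h1] with ω hω θ hθ
  have h2 : (0 : ℝ) < 2 - s := by linarith
  obtain ⟨r, hr1, hr2⟩ := exists_rat_btwn ((lt_div_iff₀ h2).2 hθ)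
  exact (hω r ((lt_div_iff₀ h2).1 hr2)).mono hr1.le

end Pool.Agent.Results.MP_a78e8f_nt.RandomResidues
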