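import Pool.Agent.V11113.MR.Av
import Pool.Agent.V11113.MR.BilFam

/-!
# The conjecture of Elliott and Halberstam on average over the least residues modulo `m` of families with small
exponential sums, e.g. of a bilinear form at two arbitrary sets

Absolute values over all moduli and arbitrary heights inside; the residue class is averaged, with arbitrary
coefficients, over the integers `c + v i`, where the `v i` are the least residues modulo an arbitrary large integer `m`
of a family with exponential sums `O(#s m ^ (-δ))`, with an arbitrarily small `δ > 0`. Examples: the elements of a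
multiplicative subgroup of order `p ^ (1 / 2 + δ)` modulo a prime `p`, the products of the elements of two arbitrary
sets with `#A #A' ≥ p ^ (1 + 2 δ)`, the values `x · Q y + f(x) + g(y)` at the pairs of vectors of two arbitrary sets with
`#A #A' ≥ p ^ (d + 2 δ)` and arbitrary functions `f` and `g`. (These integers may lie in a very thin set, and nothing else is
known about their distribution.)

Proof: `V11113.MR.law_res`: such a family has a small characteristic function away from the integers (completion); the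
theorem of the library TH872.An4 on averages over random residues with a small characteristic function (starting
files) is applied to it.

From Mathlib: `ArithmeticFunction.vonMangoldt`: the function `Λ`; `Nat.totient`: Euler's function; `ZMod.stdAddChar`:
the character `e(x / m)`; `ZMod.val`: the least nonnegative residue.
-/

set_option autoImplicit false

namespace Pool.Agent.Results.MP_a78e8f_nt.ResiduesModuloPrimes

open Finset Matrix

/-- `ψ(x; q, a)`: the sum of `Λ(n)` over the `n ≤ x` with `n ≡ a (mod q)`. -/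
noncomputable def psi (x q a : ℕ) : ℝ :=
  ∑ n ∈ (Icc 1 x).filter (fun n => n ≡ a [MOD q]), ArithmeticFunction.vonMangoldt n

/-- The sum of `w(i) (ψ(x; q, r(i)) - x / φ(q))` over the members `i` of the family with `r(i)` positive and coprime
to `q`. -/
noncomputable def total {ι : Type} (s : Finset ι) (r : ι → ℤ) (w : ι → ℝ) (x q : ℕ) : ℝ :=
  ∑ i ∈ s.filter (fun i => 0 < r i ∧ (r i).toNat.Coprime q), w i * (psi x q (r i).toNat - (x : ℝ) / Nat.totient q)

/-- Let `B`, `δ`, `T`, `U` and `ε > 0` be fixed.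

(1) Let `m` be large, and let `v i ∈ ℤ / m`, `i ∈ s`, be an arbitrary finite family with
`|∑ e(b v(i) / m)| ≤ #s m ^ (-δ)` for all `b ≢ 0 (mod m)`. Let `c` be an integer with `|c| ≤ B m`, let `w(i)` be real
coefficients with `|w(i)| ≤ log ^ T m`, and for every modulus `q` let `x(q) ≤ B m` be an arbitrary height. Then the sum over
ALL moduli `q ≤ m ^ (1 - ε)` of the ABSOLUTE VALUE of the sum of `w(i) (ψ(x(q); q, r(i)) - x(q) / φ(q))`, over the `i` for
which `r(i) = c + v(i)` (with the least residue `0 ≤ v(i) < m`) is positive and coprime to `q`, is at most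
`#s m / log ^ U m`.

(2) Let `p` be a large prime, `d` arbitrary, let `A` and `A'` be arbitrary sets of vectors modulo `p` with
`#A #A' ≥ p ^ (d + 2 δ)`, let `Q` be an invertible matrix and let `f` and `g` be arbitrary functions. Then the same holds for
the family of the least residues modulo `p` of `x · Q y + f(x) + g(y)`, `x ∈ A`, `y ∈ A'`. -/
theorem result (B δ : ℝ) (hB : 0 < B) (hδ : 0 < δ) (T U : ℕ) (ε : ℝ) (hε : 0 < ε) :
    (∃ m₀ : ℕ, ∀ (m : ℕ) [NeZero m], m₀ ≤ m → ∀ (ι : Type) (s : Finset ι) (v : ι → ZMod m),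
      (∀ b : ZMod m, b ≠ 0 → ‖∑ i ∈ s, (ZMod.stdAddChar (b * v i) : ℂ)‖ ≤ s.card * (m : ℝ) ^ (-δ)) →
      ∀ c : ℤ, |(c : ℝ)| ≤ B * m → ∀ w : ι → ℝ, (∀ i, |w i| ≤ Real.log m ^ T) →
      ∀ x : ℕ → ℕ, (∀ q, (x q : ℝ) ≤ B * m) →
      ∑ q ∈ Icc 1 ⌊(m : ℝ) ^ (1 - ε)⌋₊, |total s (fun i => c + ((v i).val : ℤ)) w (x q) q| ≤
        s.card * m / Real.log m ^ U) ∧
    (∃ p₀ : ℕ, ∀ p : ℕ, p₀ ≤ p → p.Prime → ∀ (d : ℕ) (A A' : Finset (Fin d → ZMod p))
      (Q : Matrix (Fin d) (Fin d) (ZMod p)), IsUnit Q.det → (p : ℝ) ^ (d + 2 * δ) ≤ A.card * A'.card →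
      ∀ f g : (Fin d → ZMod p) → ZMod p, ∀ c : ℤ, |(c : ℝ)| ≤ B * p →
      ∀ w : (Fin d → ZMod p) × (Fin d → ZMod p) → ℝ, (∀ z, |w z| ≤ Real.log p ^ T) →
      ∀ x : ℕ → ℕ, (∀ q, (x q : ℝ) ≤ B * p) →
      ∑ q ∈ Icc 1 ⌊(p : ℝ) ^ (1 - ε)⌋₊,
        |total (A ×ˢ A') (fun z => c + ((z.1 ⬝ᵥ Q.mulVec z.2 + f z.1 + g z.2).val : ℤ)) w (x q) q| ≤
        A.card * A'.card * p / Real.log p ^ U) := by
  obtain ⟨m₀, -, h⟩ := Pool.Agent.V11113.MR.av_res B δ hB hδ T U ε hε
  refine ⟨⟨m₀, h⟩, m₀, fun p hp hpp d A A' Q hQ hN f g c hc w hw x hx => ?_⟩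
  have : Fact p.Prime := ⟨hpp⟩
  have h1 := h p hp ((Fin d → ZMod p) × (Fin d → ZMod p)) (A ×ˢ A')
    (fun z => z.1 ⬝ᵥ Q.mulVec z.2 + f z.1 + g z.2)
    (fun b hb => Pool.Agent.V11113.MR.bil_small δ p d A A' Q hQ f g hN b hb) c hc w hw x hx
  rw [card_product] at h1
  push_cast at h1
  exact h1

end Pool.Agent.Results.MP_a78e8f_nt.ResiduesModuloPrimes
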